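import Pool.Agent.UL5.Defs

/-!
# Squad UL6 (MP_c7c9bf_co): frusta, cones and cylinders over centrally symmetric bases satisfy Ulam's bound

THEOREM (helper86, note 3982). Let `C` be a centrally symmetric planar convex body in 3-space, `p` a point
outside of its plane, `0 ≤ t ≤ 1`. The frustum `conv (C ∪ (t C + p))` has a packing by translates of itself
and its negative of density at least `0.7405 > 0.74049 = pi / sqrt 18`.

All rows: file `Pool/Agent/HelperNN_UL6/XXX.lean`, import the file of the statement, namespace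
`Pool.Agent.UL6.HNN`, theorem `xxx (hypotheses = the statements of the column uses, in this order) : XxxStmt`.
-/

set_option autoImplicit false

namespace Pool.Agent.UL6

open MeasureTheory Set Pool.Agent.UL3 Pool.Agent.UL4 Pool.Agent.UL5

/-- the frustum of height `h` over `C`: the section at height `z` is `(1 - k z) • C` -/
def frg (C : Set (ℝ × ℝ)) (k h : ℝ) : Set E3 :=
  {x | 0 ≤ x 2 ∧ x 2 ≤ h ∧ ∃ c ∈ C, (x 0, x 1) = (1 - k * x 2) • c}

/-- the double cone, truncated at the heights `± (1 - t)` -/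
def tda (C : Set (ℝ × ℝ)) (t : ℝ) : Set E3 :=
  {x | |x 2| ≤ 1 - t ∧ ∃ c ∈ C, (x 0, x 1) = (1 - |x 2|) • c}

/-- there is a double lattice packing of density at least `0.7405` -/
def Good5 (K : Set E3) : Prop :=
  ∃ (v : Fin 3 → E3) (z : E3), 0 < dt v ∧
    (∀ n : Fin 3 → ℤ, n ≠ 0 → Disjoint (interior K)
      ((fun x => x + (2 : ℝ) • ∑ i, (n i : ℝ) • v i) '' interior K)) ∧
    (∀ n : Fin 3 → ℤ, z + ∑ i, (n i : ℝ) • v i ∉ interior K) ∧
    1481 / 500 * dt v ≤ V K

end Pool.Agent.UL6
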