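import Pool.Agent.UL6.Defs
import Pool.Agent.UL5.Stmts

/-!
# Squad UL6: statements

One statement per row; every docstring contains a complete proof. All rows of squad UL5 are proved and may be
imported (`Pool.Agent.Helper27_UL5.HMX`: `Pool.Agent.UL5.H27.hmx : HmxStmt`, and so on).
-/

set_option autoImplicit false

namespace Pool.Agent.UL6

open MeasureTheory Set Pool.Agent.UL3 Pool.Agent.UL4 Pool.Agent.UL5

/-! ### The plane: selection of the direction -/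

/-- **CHG** (medium, no hypotheses; HMX of UL5 is proved: `Pool.Agent.UL5.H27.hmx`).  The chord bound.
PROOF.  As row CHB of UL5 (`Pool/Agent/Helper37_UL5/CHB.lean`). `y = cr u x`, `H = Hm C u ≥ y`. Levels: `cr u`. `C` contains the chord `[-u, u]` at level `0` (length `2`, in units of `u`), the chord `[x, x + l u]` at level `y`, a point at level `H`, and the negatives. So the length of the chord of `C` at a level
`s ∈ [0, H]` is at least the piecewise linear interpolation of `2, l, 0` at `0, y, H`: `ar C ≥ 2 (y (2 + l)/2 + (H - y) l/2) = 2 y + H l`. (Fubini in the linear coordinates `x = a u + s v`, `cr u v = 1`; or triangles, see `Pool/Agent/Helper77_UL5/CAP.lean`.) -/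
def ChgStmt : Prop :=
  ∀ (C : Set (ℝ × ℝ)) (u x : ℝ × ℝ) (l : ℝ), PB C → u ∈ C → u ∉ interior C → x ∈ C → 0 ≤ cr u x →
    0 ≤ l → x + l • u ∈ C → Hm C u * l + 2 * cr u x ≤ ar C

/-- **CHC** (easy-medium, no hypotheses).  The alternative for the chord at level `h`.
PROOF.  `u ≠ 0` (`0` is interior), so there is `x₀` with `cr u x₀ = h`. `S = {s | x₀ + s u ∈ interior C}` is open, convex, bounded (`C` is bounded, `u ≠ 0`). If `S` is empty: `q = x₀`. Otherwise `S = (α, β)` (`α = sInf S`, `β = sSup S`). If `β - α ≤ 2 w`: `q = x₀ + ((α + β)/2) u`: for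
`|s| ≥ w ≥ (β - α)/2` the parameter `(α + β)/2 + s` is not in `(α, β)`. If `2 w < β - α`: `p = x₀ + α u`, `l = β - α` (`C` is closed, so both endpoints are in `C`). (Compare `chord` and `outside` in `Pool/Agent/Helper46_UL5/SEL.lean`.) -/
def ChcStmt : Prop :=
  ∀ (C : Set (ℝ × ℝ)) (u : ℝ × ℝ) (h w : ℝ), PB C → u ∈ C → u ∉ interior C → 0 < w →
    (∃ q : ℝ × ℝ, cr u q = h ∧ ∀ s : ℝ, w ≤ |s| → q + s • u ∉ interior C) ∨
    ∃ (p : ℝ × ℝ) (l : ℝ), p ∈ C ∧ p + l • u ∈ C ∧ cr u p = h ∧ 2 * w < l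

/-- **SEG** (medium, uses CHG CHC; HMX and PKA of UL5 are proved: `H27.hmx`, `H74.pka (H77.cap H27.hmx)`).  Selection, first part.
PROOF.  Suppose that the second alternative is false: a boundary point `u₀` has `(2 - m) ar C ≤ 4 w Hm C u₀`. CLAIM: there is a boundary `u` with `4 r Hm C u ≤ ar C` and `(2 - m) ar C ≤ 4 w Hm C u`. PKA: a boundary `u₁` with `3 Hm C u₁ ≤ ar C`, so `4 r Hm C u₁ ≤ ar C`. If
`(2 - m) ar C ≤ 4 w Hm C u₁`, take `u₁`. Otherwise, by continuity of `x ↦ Hm C x / gauge C x` on the connected set `{0}ᶜ` (exactly as in `Pool/Agent/Helper46_UL5/SEL.lean`), some boundary `u` has `4 w Hm C u = (2 - m) ar C`; then `4 r (2 - m) Hm C u ≤ 4 w Hm C u = (2 - m) ar C`, and `2 - m > 0`.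
Now CHC with `h = (m/4) ar C`. The first case is the first alternative. In the second case CHG gives `Hm C u * l + 2 h ≤ ar C` with `l > 2 w` and `Hm C u > 0`: `4 w Hm C u < (2 - m) ar C`, contradiction. -/
def SegStmt : Prop :=
  ∀ (C : Set (ℝ × ℝ)) (w m r : ℝ), PB C → 0 < w → 0 < m → m < 2 → 0 < r → r ≤ 3 / 4 →
    r * (2 - m) ≤ w →
    (∃ u q : ℝ × ℝ, u ∈ C ∧ u ∉ interior C ∧ 4 * r * Hm C u ≤ ar C ∧ cr u q = m / 4 * ar C ∧
      ∀ s : ℝ, w ≤ |s| → q + s • u ∉ interior C) ∨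
    ∀ u ∈ C, u ∉ interior C → 4 * w * Hm C u < (2 - m) * ar C

/-- **SEQ** (easy-medium, uses SEG CHC).  Selection, second part.
PROOF.  Assume the second alternative of SEG. Every boundary `u` has `4 r (2 - m) Hm C u ≤ 4 w Hm C u < (2 - m) ar C`, so `4 r Hm C u ≤ ar C`. Take any boundary `u` (exists: `s x`, `x ≠ 0`, `s` maximal; or PKA of UL5). CHC with `h = (m/4) ar C > 0`: in the first case we are done. In the second case `p` and
`p' = p + 2 w u` are in `C` (convexity, `2 w < l`). `p' ≠ 0` (`cr u p' = h > 0`); `u' = s p'`, `s ≥ 1`, a boundary point (`s` maximal, i.e. `s = (gauge C p')⁻¹`). `Hm C u' ≥ |cr u' p| = s |cr (p + 2 w u) p| = 2 w s h ≥ 2 w h` (HMX: `H27.hmx`). So `4 w (2 w) (m/4) ar C ≤ 4 w Hm C u' < (2 - m) ar C`, that is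
`2 w^2 m < 2 - m`, contradiction. -/
def SeqStmt : Prop :=
  ∀ (C : Set (ℝ × ℝ)) (w m r : ℝ), PB C → 0 < w → 0 < m → m < 2 → 0 < r → r ≤ 3 / 4 →
    r * (2 - m) ≤ w → 2 - m ≤ 2 * w ^ 2 * m →
    ∃ u q : ℝ × ℝ, u ∈ C ∧ u ∉ interior C ∧ 4 * r * Hm C u ≤ ar C ∧ cr u q = m / 4 * ar C ∧
      ∀ s : ℝ, w ≤ |s| → q + s • u ∉ interior C

/-! ### The plane: the area inequality for long chords in all directions -/

/-- **PMN** (medium, no hypotheses).  A direction whose highest chord of length `l` is lowest.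
PROOF.  For `u` in the boundary `B = C \ interior C` let `h u` be the maximum of `cr u p'` over the compact set `{p' | p' ∈ C, p' + l u ∈ C}`, nonempty since it contains `- (l/2) u`. `h` is lower semicontinuous on `B`: let `u ∈ B`, `p` a maximiser, `0 < δ < 1`, `p_δ = (1 - δ) p + δ (- (l/2) u)`.
`± (l/2) u` are interior points of `C` (`l/2 < 1`, `0` is interior), so `p_δ` and `p_δ + l u = (1 - δ) (p + l u) + δ (l/2) u` are interior points; for `u'` near `u` also `p_δ + l u' ∈ C`, so `h u' ≥ cr u' p_δ`, which is near `cr u p_δ = (1 - δ) h u`. (If `c < h u`: choose `δ` with `c < (1 - δ) h u`, then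
`h u' > c` for `u'` near `u`.) `B` is compact and nonempty, so `h` has a minimum on `B` (`LowerSemicontinuousOn.exists_isMinOn`): take `u` = the minimiser and `p` = its maximiser. -/
def PmnStmt : Prop :=
  ∀ (C : Set (ℝ × ℝ)) (l : ℝ), PB C → 0 < l → l < 2 →
    ∃ u p : ℝ × ℝ, u ∈ C ∧ u ∉ interior C ∧ p ∈ C ∧ p + l • u ∈ C ∧
      (∀ p' ∈ C, p' + l • u ∈ C → cr u p' ≤ cr u p) ∧
      ∀ u' ∈ C, u' ∉ interior C → ∃ p' ∈ C, p' + l • u' ∈ C ∧ cr u p ≤ cr u' p'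

/-- **PQA** (medium, no hypotheses; triangles: `Tri`, `tri_real`, `tri_meas` in `Pool/Agent/Helper77_UL5/CAP.lean`).  Area of a hexagon and two caps.
PROOF.  `A = (-l/2, 1)`, `B = (l/2, 1)`. The part `|y| < 1`: the open triangles `0,(1,0),B`; `0,B,A`; `0,A,(-1,0)` and their negatives are in `C`, disjoint, in `{|y| < 1}`, total area `1 + l + 1 = 2 + l`. The part `y > 1`: the open triangle `A, B, p` (a translate of `Tri (B - A) (p - A)`) is in `C ∩ {y > 1}`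
and has area `l (p.2 - 1)/2`; its negative is in `y < -1`. Second claim. First claim: `cr (p' - A) (p - B) = l (p'.2 - 1) + cr (p' - A) (p - A)`. If `cr (p' - A) (p - A) ≤ 0`, use the second claim for `p'`. Otherwise the open triangles `A, B, p'` (area `l (p'.2 - 1)/2`) and `A, p', p` (area
`cr (p' - A) (p - A)/2`) are both in `C ∩ {y > 1}` and disjoint (for `x` in the first `cr (p' - A) (x - A) ≤ 0`, in the second it is `> 0`); the negatives in `y < -1` (if `p'.2 = 1` the first triangle is degenerate: omit it). Sum: `2 + l + l (p'.2 - 1) + cr (p' - A) (p - A)`. -/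
def PqaStmt : Prop :=
  ∀ (C : Set (ℝ × ℝ)) (l : ℝ) (p p' : ℝ × ℝ), PB C → 0 < l → ((1, 0) : ℝ × ℝ) ∈ C →
    ((-(l / 2), 1) : ℝ × ℝ) ∈ C → ((l / 2, 1) : ℝ × ℝ) ∈ C → p ∈ C → p' ∈ C → 1 ≤ p.2 → 1 ≤ p'.2 →
    2 + l + cr (p' - (-(l / 2), 1)) (p - (l / 2, 1)) ≤ ar C ∧ 2 + l + l * (p.2 - 1) ≤ ar C ∧
    2 + l + l * (p'.2 - 1) ≤ ar C

/-- **PNA** (medium, no hypotheses).  Two more points of the body.
PROOF.  `A = (-l/2, 1)`, `B = (l/2, 1)`. (1) `B` is not interior: if the ball of radius `d` (sup norm) about `B` is in `C`, then for small `e > 0` the point `a = (1 - e/d) A + (e/d) (B + (0, d)) = (-l/2 + l e/d, 1 + e)` and `b = B + (d, e)` are in `C`, `b - a = (l + d - l e/d, 0)`, and `d - l e/d ≥ 0` for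
small `e`; so the point `a` and `a + (l, 0)` (between `a` and `b`) are in `C`, at height `1 + e > 1`, contradiction to the hypothesis. (2) Hypothesis for `u = B`: `p = (x, y) ∈ C`, `p + l B = (x + l^2/2, y + l) ∈ C`, `1 ≤ cr B p = (l/2) y - x`. (3) `y ≥ 0`: suppose `y < 0`, `Y = -y`, `X = -x ≥ 1 + (l/2) Y`:
`(X, Y) ∈ C`, `(l/2, -1) = -A ∈ C`; the point at height `0` of the segment between them is `((X + (l/2) Y)/(1 + Y), 0) ∈ C`, and `X + (l/2) Y ≥ 1 + l Y > 1 + Y`: so `(x₁, 0) ∈ C` with `x₁ > 1`, and `(1, 0)`, between the interior point `0` and `(x₁, 0)`, is interior, contradiction. This is the first claim.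
Second claim: apply the first one to the mirror image `M = {(-x, y) | (x, y) ∈ C}`. Its hypotheses: `(1,0) ∈ M` since `(-1, 0) ∈ C`; not interior by symmetry; `A`, `B` are exchanged; if `q, q + (l, 0) ∈ M` then `(-q.1 - l, q.2)` and its translate by `(l, 0)` are in `C`, so `q.2 ≤ 1`; for a boundary point `u` of `M`,
`u' = (-u.1, u.2)` is one of `C`: `p ∈ C`, `p + l u' ∈ C`, `1 ≤ cr u' p`; the mirror image `q` of `- (p + l u')` is in `M`, `q + l u` is the mirror image of `- p`, so in `M`, and `cr u q = - cr u' (-(p + l u')) = cr u' p ≥ 1`. The first claim for `M`: `(x, y)` with `x ≤ (l/2) y - 1`, `(x + l^2/2, y + l) ∈ M`; put `x' = -x`. -/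
def PnaStmt : Prop :=
  ∀ (C : Set (ℝ × ℝ)) (l : ℝ), PB C → 1 < l → l < 2 → ((1, 0) : ℝ × ℝ) ∈ C →
    ((1, 0) : ℝ × ℝ) ∉ interior C → ((-(l / 2), 1) : ℝ × ℝ) ∈ C → ((l / 2, 1) : ℝ × ℝ) ∈ C →
    (∀ p ∈ C, p + (l, 0) ∈ C → p.2 ≤ 1) →
    (∀ u ∈ C, u ∉ interior C → ∃ p ∈ C, p + l • u ∈ C ∧ 1 ≤ cr u p) →
    (∃ x y : ℝ, 0 ≤ y ∧ x ≤ l / 2 * y - 1 ∧ ((x + l ^ 2 / 2, y + l) : ℝ × ℝ) ∈ C) ∧
    ∃ x y : ℝ, 0 ≤ y ∧ 1 - l / 2 * y ≤ x ∧ ((x - l ^ 2 / 2, y + l) : ℝ × ℝ) ∈ C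

/-- **PNM** (easy-medium, uses PQA PNA).  The normalised area inequality.
PROOF.  PNA: `x, y` and `x', y'`. `q = (x + l^2/2, y + l)`, `q' = (x' - l^2/2, y' + l)`, heights `≥ l > 1`. `D = 1 + l/2 - l^2/2 > 0`, `E = 1 + l - l^2 > 0` (`l ≤ 3/2`), `Y₀ = 2 E/l`. `A = (-l/2, 1)`, `B = (l/2, 1)`. Claim: `ar C ≥ 2 + l + 2 D (l - 1) = 2 l + 2 l^2 - l^3`. If `y ≥ Y₀`: PQA (second part) for `q`:
`ar C ≥ 2 + l + l (y + l - 1) ≥ 2 + l + 2 E + l^2 - l = 2 + l + 2 D ≥ 2 + l + 2 D (l - 1)`. The same if `y' ≥ Y₀` (third part). Otherwise `y, y' ≤ Y₀`, and `cr (q' - A) (q - B) = (x' - l^2/2 + l/2) (y + l - 1) - (y' + l - 1) (x + l^2/2 - l/2) ≥ (D - (l/2) y') (y + l - 1) + (y' + l - 1) (D - (l/2) y)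
= 2 D (l - 1) + E (y + y') - l y y'`, because `y + l - 1 ≥ 0`, `y' + l - 1 ≥ 0`; and `l y y' ≤ E (y + y')` because `l y y' ≤ l Y₀ y'/1`, `l y y' ≤ l Y₀ y`, so `2 l y y' ≤ l Y₀ (y + y') = 2 E (y + y')`. PQA, first part. -/
def PnmStmt : Prop :=
  ∀ (C : Set (ℝ × ℝ)) (l : ℝ), PB C → 1 < l → l ≤ 3 / 2 → ((1, 0) : ℝ × ℝ) ∈ C →
    ((1, 0) : ℝ × ℝ) ∉ interior C → ((-(l / 2), 1) : ℝ × ℝ) ∈ C → ((l / 2, 1) : ℝ × ℝ) ∈ C →
    (∀ p ∈ C, p + (l, 0) ∈ C → p.2 ≤ 1) →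
    (∀ u ∈ C, u ∉ interior C → ∃ p ∈ C, p + l • u ∈ C ∧ 1 ≤ cr u p) →
    2 * l + 2 * l ^ 2 - l ^ 3 ≤ ar C

/-- **PLM** (medium, uses PMN PNM).  The area inequality.
PROOF.  PMN: `u`, `p`; `h₁ = cr u p`. Hypothesis for `u`: some `p' ∈ C`, `p' + l u ∈ C`, `h ≤ cr u p' ≤ h₁`. So `h₁ > 0`. `T x = x.1 • u + x.2 • (p + (l/2) u)`, `det T = cr u (p + (l/2) u) = h₁`, a linear automorphism; `C' = T⁻¹ C`: `PB C'`, `ar C = h₁ ar C'`, `cr (T a) (T b) = h₁ cr a b`. `T (1,0) = u`,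
`T (-l/2, 1) = p`, `T (l/2, 1) = p + l u`. If `p', p' + (l,0) ∈ C'` then `cr u (T p') = h₁ p'.2 ≤ h₁`. For a boundary point `u'` of `C'`, `T u'` is one of `C`, PMN: `p'' ∈ C`, `p'' + l T u' ∈ C`, `h₁ ≤ cr (T u') p''`; `p'' = T p'`. PNM: `2 l + 2 l^2 - l^3 ≤ ar C' = ar C / h₁`. So
`(2 l + 2 l^2 - l^3) h ≤ (2 l + 2 l^2 - l^3) h₁ ≤ ar C`. (The change of variables is the same as in row PLN of UL3, `Pool/Agent/Helper23_UL3/PLN.lean`.) -/
def PlmStmt : Prop :=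
  ∀ (C : Set (ℝ × ℝ)) (l h : ℝ), PB C → 1 < l → l ≤ 3 / 2 → 0 < h →
    (∀ u ∈ C, u ∉ interior C → ∃ p ∈ C, p + l • u ∈ C ∧ h ≤ cr u p) →
    (2 * l + 2 * l ^ 2 - l ^ 3) * h ≤ ar C

/-- **SEB** (medium, uses SEG CHC PLM).  Selection for the slab arrangement.
PROOF.  SEG with `w = 1/(1+t)`, `m = 4000 (1 + t + t^2)/(4443 (1 + t))`, `r = 4443/(4000 (1 + t + t^2))`. Conditions: `m < 2` (`4000 (1 + t + t^2) < 8886 (1 + t)`), `r ≤ 3/4` (`1 + t + t^2 ≥ 1.56`), `r (2 - m) ≤ w`: equivalent to `4443 (1 + t) ≤ 4000 (1 + t + t^2)`, i.e. `4000 t^2 - 443 t - 443 ≥ 0`, true for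
`t ≥ 2/5`. The first alternative is the claim (`4 r = 4443/(1000 (1 + t + t^2))`). Second alternative: every boundary `u` has `4 r (2 - m) Hm C u ≤ 4 w Hm C u < (2 - m) ar C`, so `4 r Hm C u ≤ ar C`. `h = (m/4) ar C > 0`. If CHC (with `h`, `w`) is in its first case for some boundary `u` we are done. Otherwise every boundary
`u` has `p, p + l' u ∈ C`, `l' > 2 w`, `cr u p = h`, so `p + 2 w u ∈ C` (convexity), and PLM with `l = 2 w = 2/(1+t) ∈ (1, 3/2]` gives `(2 l + 2 l^2 - l^3) (m/4) ar C ≤ ar C`. But `(1 + t + t^2)/(1 + t) = (l^2 - 2 l + 4)/(2 l)`, `m/4 = (1000/4443) (l^2 - 2 l + 4)/(2 l)`, and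
`(2 l + 2 l^2 - l^3) (m/4) = (1000/8886) (2 + 2 l - l^2) (l^2 - 2 l + 4) = (1000/8886) (9 - (l - 1)^4) > 1`, since `0 < l - 1 ≤ 3/7`, `9 - (3/7)^4 > 8.886`. Contradiction (`ar C > 0`). -/
def SebStmt : Prop :=
  ∀ (C : Set (ℝ × ℝ)) (t : ℝ), PB C → 2 / 5 ≤ t → t ≤ 17 / 20 → ∃ u q : ℝ × ℝ, u ∈ C ∧ u ∉ interior C ∧
    4443 / 1000 * Hm C u ≤ (1 + t + t ^ 2) * ar C ∧
    4443 / 1000 * (1 + t) * cr u q = (1 + t + t ^ 2) * ar C ∧
    ∀ s : ℝ, 1 / (1 + t) ≤ |s| → q + s • u ∉ interior C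

/-! ### The bodies -/

/-- **FGV** (medium, no hypotheses).  The frustum is a convex body; its volume.
PROOF.  As row DCB of UL5 for `con C` (`Pool/Agent/Helper7_UL5/DCB.lean`; `con C = frg C 1 1`). Compact: image of the compact set `C × [0, h]` under `(c, z) ↦ up ((1 - k z) c) z`. Convex: the combination of `up ((1 - k z) c) z` and `up ((1 - k z') c') z'` has height `a z + b z'` and `a (1 - k z) c + b (1 - k z') c'` is in
`(1 - k (a z + b z')) C` (`C` convex, `a (1 - k z) + b (1 - k z') = 1 - k (a z + b z')`, the coefficients are `≥ 0`). Interior: it contains a neighbourhood of `up 0 (h/2)`. Volume: the section at height `z ∈ [0,h]` has area `(1 - k z)^2 ar C`; FUB of UL3 (`Pool.Agent.UL3.H34.fub`). `∫_0^h (1 - k z)^2 dz = h - k h^2 + k^2 h^3/3`. -/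
def FgvStmt : Prop :=
  ∀ (C : Set (ℝ × ℝ)) (k h : ℝ), PB C → 0 ≤ k → 0 < h → k * h ≤ 1 →
    CB (frg C k h) ∧ V (frg C k h) = (h - k * h ^ 2 + k ^ 2 * h ^ 3 / 3) * ar C

/-- **FGI** (easy-medium, no hypotheses).  Interior points of the frustum.
PROOF.  As row DCI of UL5 (`Pool/Agent/Helper92_UL5/DCI.lean`). Moving the third coordinate: `0 < z < h`, so `1 - k z > 0` (`k z < 1` since `k h ≤ 1`, `z < h`, `0 ≤ k`). If `e` is small, the point with horizontal coordinates `p + e` and the same third coordinate is in `frg C k h`, so `(1 - k z)⁻¹ (p + e) ∈ C`. -/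
def FgiStmt : Prop :=
  ∀ (C : Set (ℝ × ℝ)) (k h : ℝ) (p : ℝ × ℝ) (z : ℝ), PB C → 0 ≤ k → 0 < h → k * h ≤ 1 →
    up p z ∈ interior (frg C k h) → 0 < z ∧ z < h ∧ (1 - k * z)⁻¹ • p ∈ interior C

/-- **TDA** (easy-medium, no hypotheses).  The truncated double cone.
PROOF.  As in rows DCB and DCI of UL5 (`Pool/Agent/Helper7_UL5/DCB.lean`, `Pool/Agent/Helper92_UL5/DCI.lean`): `tda C t = {x ∈ dco C | |x 2| ≤ 1 - t}`, the intersection of the symmetric convex set `dco C` and a symmetric slab. `frg C 1 (1 - s) ⊆ tda C t` for `t ≤ s`: `0 ≤ x 2 ≤ 1 - s ≤ 1 - t`. Interior: as DCI. -/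
def TdaStmt : Prop :=
  ∀ (C : Set (ℝ × ℝ)) (t : ℝ), PB C → 0 < t → t < 1 → Convex ℝ (tda C t) ∧
    (∀ x ∈ tda C t, -x ∈ tda C t) ∧ (∀ s : ℝ, t ≤ s → frg C 1 (1 - s) ⊆ tda C t) ∧
    ∀ (p : ℝ × ℝ) (z : ℝ), up p z ∈ interior (tda C t) → |z| < 1 - t ∧ (1 - |z|)⁻¹ • p ∈ interior C

/-! ### The lattices -/

/-- **LSB** (medium, uses FGI).  The slab arrangement.
PROOF.  `w = (1 + t) q + u`, `y = cr u w = (1 + t) cr u q ≥ Hm C u > 0`. `v = ![up u 0, up w 0, up 0 (1/2)]`, `dt v = y/2`, `z = up (w/2) (1/2)`. Interior points of `C` have `|cr u x| < Hm C u` (`level_lt` in `Pool/Agent/Helper32_UL5/LAT.lean`). For `n = (b, c, m)`: `∑ n_i v_i = up (b u + c w) (m/2)`.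
Disjointness: let `x = up p z₁` and `x + 2 ∑ n_i v_i` (or `x - 2 ∑`) be interior. Heights are in `(0,1)` and differ by `m`: `m = 0`. With `ρ = 1 - (1 - t) z₁ ∈ (0, 1]`: FGI: `ρ⁻¹ p` and `ρ⁻¹ (p + 2 (b u + c w))` are interior in `C`, so is `ρ⁻¹ (b u + c w)` (half the difference) and `b u + c w` (`ρ ≤ 1`).
If `c ≠ 0`: its level is `c y`, `|c y| ≥ Hm C u`, contradiction. If `c = 0`: `b ≠ 0`, `b u` interior implies `u` interior, contradiction.
The points `z + ∑ n_i v_i = up (w/2 + b u + c w) (1/2 + m/2)`: if interior, `0 < 1/2 + m/2 < 1`, so `m = 0`, and `(2/(1+t)) (w/2 + b u + c w) = (1+t)⁻¹ ((2 c + 1) w + 2 b u)` is interior in `C`. Its level is `(2 c + 1) cr u q`; if `|2 c + 1| ≥ 3` then `|level| ≥ 3 y/(1 + t) ≥ y ≥ Hm C u`, contradiction.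
`c = 0`: it is `q + ((2 b + 1)/(1 + t)) u`, `|2 b + 1| ≥ 1`: not interior by hypothesis. `c = -1`: it is `- (q + ((1 - 2 b)/(1 + t)) u)`: not interior (symmetry). -/
def LsbStmt : Prop :=
  ∀ (C : Set (ℝ × ℝ)) (u q : ℝ × ℝ) (t : ℝ), PB C → 0 ≤ t → t ≤ 1 → u ∈ C → u ∉ interior C →
    Hm C u ≤ (1 + t) * cr u q → (∀ s : ℝ, 1 / (1 + t) ≤ |s| → q + s • u ∉ interior C) →
    ∃ (v : Fin 3 → E3) (z : E3), 0 < dt v ∧
      (∀ n : Fin 3 → ℤ, n ≠ 0 → Disjoint (interior (frg C (1 - t) 1))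
        ((fun x => x + (2 : ℝ) • ∑ i, (n i : ℝ) • v i) '' interior (frg C (1 - t) 1))) ∧
      (∀ n : Fin 3 → ℤ, z + ∑ i, (n i : ℝ) • v i ∉ interior (frg C (1 - t) 1)) ∧
      dt v = (1 + t) / 2 * cr u q

/-- **LTF** (medium, uses TDA).  The lattice for the truncated double cone. (Same pattern as `Pool/Agent/Helper32_UL5/LAT.lean`.)
PROOF.  `v = ![up ((1 - a) u) a, up (-(1 - 2 a) u) (2 a), up (-(1 - 3a/2) u + (1 - a/2) q) (a/2)]`, `dt v = (3 a - 4 a^2) (1 - a/2) cr u q > 0` (`cr u q > 0` since `Hm C u > 0`). Point with integer coefficients `(b, c, n)`, `k = b + 2 c`: `up (s u + n (1 - a/2) q) z`, `z = a (k + n/2)`,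
`s = k (1 - a) - c (3 - 4 a) - n (1 - 3a/2)`. Let `(b, c, n) ≠ 0` and let it be interior in `tda C (1 - 3a)`; TDA: `|z| < 3 a`, `(1 - |z|)⁻¹ (s u + n (1 - a/2) q) ∈ interior C`; by symmetry `n ≥ 0`.
`n = 0`: `|k| ≤ 2`, `|s| < 1 - |z|` (`u` is not interior and `0` is); by symmetry `k ≥ 0`. `k = 0`: `c ≠ 0`, `|s| = |c| (3 - 4 a) ≥ 1`, contradiction. `k = 1`: `|s| = |(1 - a) - c (3 - 4a)| ≥ 1 - a` for every integer `c` (`c ≤ 0`: clear; `c ≥ 1`: `c (3 - 4 a) - (1 - a) ≥ 2 - 3 a ≥ 1 - a`), contradiction. `k = 2`: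
`|s| = |2 (1 - a) - c (3 - 4a)| ≥ 1 - 2 a` (`c ≤ 0`: clear; `c = 1`: `|s| = 1 - 2a`; `c ≥ 2`: `c (3 - 4a) - 2 (1 - a) ≥ 4 - 6 a ≥ 1 - 2 a`), contradiction.
`n ≥ 2`: level `n (1 - a/2) cr u q/(1 - |z|) ≥ 2 (1 - 3a/2) Hm C u ≥ Hm C u` (`a ≤ 1/4`), but interior points have level `< Hm C u` (`level_lt`), contradiction. `n = 1`: `|z| < 3a` and `z = a (k + 1/2)`, so `|z| = a/2`, `3a/2` or `5a/2`. If `|z| ≥ 3a/2`: level `(1 - a/2) cr u q/(1 - |z|) ≥
(1 - a/2) cr u q/(1 - 3a/2) ≥ Hm C u`, contradiction. If `|z| = a/2`: `k = 0`: `s = -(1 - 3a/2) - c (3 - 4a)`, or `k = -1`: `s = -(2 - 5a/2) - c (3 - 4a)`; in both cases `|s| ≥ 1 - 3a/2` for every integer `c` (`k = 0`: `c ≥ 0` clear, `c ≤ -1`: `s ≥ 2 - 5a/2`; `k = -1`: `c ≥ 0`: `|s| ≥ 2 - 5a/2`, `c ≤ -1`: `s ≥ 1 - 3a/2`).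
The point `(1 - a/2)⁻¹ (s u + (1 - a/2) q) = q + (s/(1 - a/2)) u` is not interior by hypothesis. -/
def LtfStmt : Prop :=
  ∀ (C : Set (ℝ × ℝ)) (u q : ℝ × ℝ) (a : ℝ), PB C → 0 < a → a ≤ 1 / 4 → u ∈ C → u ∉ interior C →
    (1 - 3 * a / 2) * Hm C u ≤ (1 - a / 2) * cr u q →
    (∀ s : ℝ, (1 - 3 * a / 2) / (1 - a / 2) ≤ |s| → q + s • u ∉ interior C) →
    ∃ v : Fin 3 → E3, 0 < dt v ∧ Adm (tda C (1 - 3 * a)) v ∧
      dt v = (3 * a - 4 * a ^ 2) * (1 - a / 2) * cr u q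

/-! ### The four cases -/

/-- **GCC** (easy-medium, uses FGV FGI; SEL, LAT, DCB, DCI, HMX of UL5 are proved).  `t ≤ 3/10`.
PROOF.  As row CGD of UL5 (`Pool/Agent/Helper38_UL5/CGD.lean`). SEL and LAT of UL5: `v` with `Adm (dco C) v`, `dt v = (7/64) ar C`. `z = 0`. `frg C 1 (1 - t) ⊆ dco C`. `0` is not interior in `frg C 1 (1 - t)` (FGI). Disjointness: `x`, `x - 2 λ` interior, then `λ` is interior in `dco C` (symmetric, convex). FGV:
`V = (1 - t) (1 - (1 - t) + (1 - t)^2/3) ar C = ((1 - t^3)/3) ar C`, and `(1481/500) (7/64) = 0.32397 ≤ (1 - 0.027)/3`. -/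
def GccStmt : Prop :=
  ∀ (C : Set (ℝ × ℝ)) (t : ℝ), PB C → 0 ≤ t → t ≤ 3 / 10 → Good5 (frg C 1 (1 - t))

/-- **GCT** (easy-medium, uses SEQ TDA FGV FGI LTF).  `3/10 ≤ t ≤ 2/5`.
PROOF.  (1) `t ≤ 7/20`: SEQ with `(w, m, r) = (39/53, 268/265, 195/268)`, `a = 7/30`, `1 - 3a = 3/10`. (2) `7/20 ≤ t`: SEQ with `(w, m, r) = (81/107, 328/321, 243/328)`, `a = 13/60`, `1 - 3a = 7/20`. In both cases `(1 - 3a/2)/(1 - a/2) = w`, and the hypothesis `(1 - 3a/2) Hm ≤ (1 - a/2) cr u q` is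
(1) `(13/20) Hm ≤ (67/300) ar C` from `(195/67) Hm ≤ ar C`, (2) `(27/40) Hm ≤ (41/180) ar C` from `(243/82) Hm ≤ ar C`. LTF: `v`, `Adm (tda C (1 - 3a)) v`, `dt v = (217/450) (67/300) ar C` in case (1), `(104/225) (41/180) ar C` in case (2). `frg C 1 (1 - t) ⊆ tda C (1 - 3a)` (TDA). `z = 0` is not interior (FGI),
`Adm` gives the rest; disjointness as in CGD of UL5 (`tda` is symmetric and convex). `V = ((1 - t^3)/3) ar C` (FGV). (1) `(1481/500) (217/450) (67/300) ≤ 0.319 ≤ (1 - 0.35^3)/3 = 0.31904..`; (2) `(1481/500) (104/225) (41/180) ≤ 0.31186 ≤ (1 - 0.4^3)/3 = 0.312`. -/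
def GctStmt : Prop :=
  ∀ (C : Set (ℝ × ℝ)) (t : ℝ), PB C → 3 / 10 ≤ t → t ≤ 2 / 5 → Good5 (frg C 1 (1 - t))

/-- **GCB** (easy, uses SEB LSB FGV).  `2/5 ≤ t ≤ 17/20`.
PROOF.  SEB, LSB (`Hm C u ≤ (1 + t) cr u q` by the two formulas of SEB). `V = (1 - (1 - t) + (1 - t)^2/3) ar C = ((1 + t + t^2)/3) ar C` (FGV), `(1481/500) dt v = (1481/1000) (1 + t) cr u q = ((1 + t + t^2)/3) ar C`. -/
def GcbStmt : Prop :=
  ∀ (C : Set (ℝ × ℝ)) (t : ℝ), PB C → 2 / 5 ≤ t → t ≤ 17 / 20 → Good5 (frg C (1 - t) 1)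

/-- **GCY** (easy-medium, uses FGV FGI; PLN of UL3 is proved: `H23.pln H77.paa (H3.pab H77.paa) H75.pac`).  `17/20 ≤ t ≤ 1`.
PROOF.  PLN: `a, b`, `Adm2 C a b`, `0 < cr a b`, `2 sqrt 3 * cr a b ≤ ar C`. `v = ![up a 0, up b 0, up 0 1]`, `dt v = cr a b`, `z = up 0 1`. `∑ n_i v_i = up (i a + j b) m`. Disjointness: heights of interior points are in `(0,1)`, so `m = 0`; then with `ρ = 1 - (1 - t) z₁ ∈ (0,1]` as in LSB `i a + j b` is interior in `C`:
contradiction to `Adm2`. The points `z + ∑` have integer heights, so they are not interior (FGI). `V = ((1 + t + t^2)/3) ar C ≥ 0.8575 ar C ≥ 0.8575 * 2 * 1.732 * cr a b ≥ (1481/500) cr a b` (FGV). -/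
def GcyStmt : Prop :=
  ∀ (C : Set (ℝ × ℝ)) (t : ℝ), PB C → 17 / 20 ≤ t → t ≤ 1 → Good5 (frg C (1 - t) 1)

/-! ### Reduction to the standard position -/

/-- **INF** (easy-medium, no hypotheses).  Affine invariance.
PROOF.  Copy row INA of UL5 (`Pool/Agent/Helper19_UL5/INA.lean`), only the constant is different. -/
def InfStmt : Prop :=
  ∀ (K : Set E3) (T : E3 ≃L[ℝ] E3) (c : E3), Good5 ((fun x => T (x - c)) '' K) → Good5 K

/-- **SCL** (easy-medium, uses INF).  Change of the height.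
PROOF.  `T x = (x 0, x 1, (1 - t) x 2)`, a continuous linear automorphism since `t < 1`, maps `frg C (1 - t) 1` onto `frg C 1 (1 - t)`: the point with height `z` and radius `1 - (1 - t) z` goes to the height `(1 - t) z`. INF with `c = 0`. -/
def SclStmt : Prop :=
  ∀ (C : Set (ℝ × ℝ)) (t : ℝ), t < 1 → Good5 (frg C 1 (1 - t)) → Good5 (frg C (1 - t) 1)

/-- **STF** (medium, no hypotheses).  The standard position of a frustum.
PROOF.  As row STC of UL5 (`Pool/Agent/Helper15_UL5/STC.lean`). `b₁, b₂` a basis of the orthogonal complement of `n`, `b₃ = p - c`; `T b_i = e_i`. `C₀ = {q | up q 0 ∈ T (C - c)}`; `T (C - c) = {up q 0 | q ∈ C₀}`; `C₀` is compact, convex, symmetric, nonempty, and `T` maps `p + t (x - c) - c` to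
`e₃ + t T (x - c)`, so the second base goes to `{up (t q) 1 | q ∈ C₀}`. The image of the hull is the hull of the union of the two nonempty convex sets (`AffineMap.image_convexHull`, `Convex.convexHull_union`), that is `{(1 - z) up q 0 + z up (t q') 1 = up ((1 - z) q + z t q') z | q, q' ∈ C₀, z ∈ [0,1]}`, and
`(1 - z) C₀ + z t C₀ = (1 - (1 - t) z) C₀` (`C₀` convex, coefficients `≥ 0`; if `1 - (1 - t) z = 0` both sides are `{0}`). If `C₀` had no interior point it would be contained in a line through `0`, and the frustum in a plane, but it has interior points. -/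
def StfStmt : Prop :=
  ∀ (C : Set E3) (c n p : E3) (t : ℝ), IsCompact C → Convex ℝ C → C.Nonempty →
    (∀ x ∈ C, (2 : ℝ) • c - x ∈ C) → (∀ x ∈ C, inner ℝ (x - c) n = 0) → inner ℝ (p - c) n ≠ 0 →
    0 ≤ t → t ≤ 1 →
    (interior (convexHull ℝ (C ∪ (fun x => p + t • (x - c)) '' C))).Nonempty →
    ∃ (T : E3 ≃L[ℝ] E3) (C₀ : Set (ℝ × ℝ)), PB C₀ ∧
      (fun x => T (x - c)) '' convexHull ℝ (C ∪ (fun x => p + t • (x - c)) '' C) = frg C₀ (1 - t) 1

end Pool.Agent.UL6
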