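import Pool.Agent.UL6.Stmts

/-!
# Squad UL6, part 2: double frusta and their halves

The double frustum `conv (C ∪ (t C + p) ∪ (t C - p))` has a LATTICE packing of density at least `0.7405`;
so every half of it cut off by a plane through the centre has a packing by translates of itself and its
negative of the same density. One statement per row; every docstring contains a complete proof. All rows of
UL5 and almost all rows of part 1 are proved and may be imported.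
-/

set_option autoImplicit false

namespace Pool.Agent.UL6

open MeasureTheory Set Pool.Agent.UL3 Pool.Agent.UL4 Pool.Agent.UL5

/-- the double frustum: the section at height `z`, `|z| ≤ 1`, is `(1 - (1 - t) |z|) • C` -/
def tdd (C : Set (ℝ × ℝ)) (t : ℝ) : Set E3 :=
  {x | |x 2| ≤ 1 ∧ ∃ c ∈ C, (x 0, x 1) = (1 - (1 - t) * |x 2|) • c}

/-- there is a lattice packing of density at least `0.7405` -/
def Good6 (K : Set E3) : Prop :=
  ∃ v : Fin 3 → E3, 0 < dt v ∧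
    (∀ n : Fin 3 → ℤ, n ≠ 0 → Disjoint (interior K)
      ((fun x => x + (2 : ℝ) • ∑ i, (n i : ℝ) • v i) '' interior K)) ∧
    1481 / 250 * dt v ≤ V K

/-- **TDD** (easy-medium, no hypotheses; FGV of part 1 is proved: `Pool.Agent.UL6.H7.fgv`).  The double frustum.
PROOF.  As for `dco C = tdd C 0` in UL5 (`Pool/Agent/Helper7_UL5/DCB.lean`, `Pool/Agent/Helper27_UL5/DGD.lean`, `Pool/Agent/Helper92_UL5/DCI.lean`). Compact: image of `C × [-1,1]` under `(c, z) ↦ up ((1 - (1 - t)|z|) c) z`. Convex: the radius `1 - (1 - t)|z|` is concave, `≥ 0`, and `s C ⊆ s' C` for `0 ≤ s ≤ s'`. Symmetric: clear.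
Interior: contains a neighbourhood of `0`. Volume: the sections have area `(1 - (1 - t)|z|)^2 ar C` for `|z| ≤ 1` (FUB of UL3); or `tdd C t` is the union of `frg C (1 - t) 1` and its negative, with intersection in the plane `x 2 = 0`: `V = 2 V (frg C (1 - t) 1)`. Interior points as in DCI. -/
def TddStmt : Prop :=
  ∀ (C : Set (ℝ × ℝ)) (t : ℝ), PB C → 0 ≤ t → t ≤ 1 →
    SB (tdd C t) ∧ V (tdd C t) = 2 / 3 * (1 + t + t ^ 2) * ar C ∧
    ∀ (p : ℝ × ℝ) (z : ℝ), up p z ∈ interior (tdd C t) →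
      |z| < 1 ∧ (1 - (1 - t) * |z|)⁻¹ • p ∈ interior C

/-- **TDV** (easy-medium, no hypotheses).  The double frustum in the other scaling.
PROOF.  As TDD (`tda C t = {x ∈ dco C | |x 2| ≤ 1 - t}`; the sections have area `(1 - |z|)^2 ar C`; or twice `V (frg C 1 (1 - t))`, FGV of part 1). The inclusions: `|x 2| ≤ 1 - s ≤ 1 - t`, and `|x 2| ≤ 1 - t ≤ 1`. -/
def TdvStmt : Prop :=
  ∀ (C : Set (ℝ × ℝ)) (t : ℝ), PB C → 0 ≤ t → t < 1 →
    SB (tda C t) ∧ V (tda C t) = 2 / 3 * (1 - t ^ 3) * ar C ∧ tda C t ⊆ dco C ∧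
    ∀ s : ℝ, t ≤ s → tda C s ⊆ tda C t

/-- **DLB** (medium, uses TDD).  The lattice of the slab arrangement. (Same computation as row LSB, `Pool/Agent/Helper2_UL6/LSB.lean`.)
PROOF.  `w = (1 + t) q + u`, `y = cr u w = (1 + t) cr u q ≥ Hm C u > 0`. `v = ![up u 0, up w 0, up ((1/2) w) (1/2)]`, `dt v = y/2`. For `n = (b, c, m)`: `∑ n_i v_i = up (b u + c w + (m/2) w) (m/2)`. Let it be interior in `tdd C t`; TDD: `|m/2| < 1`, so `m = 0, 1, -1`; by symmetry `m ≥ 0`.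
`m = 0`: `b u + c w ∈ interior C`: if `c ≠ 0` its level is `c y`, `|c y| ≥ Hm C u`, contradiction (`level_lt` in `Pool/Agent/Helper32_UL5/LAT.lean`); if `c = 0`, `b ≠ 0` then `u` is interior, contradiction. `m = 1`: `(1 - (1 - t)/2)⁻¹ = 2/(1 + t)`: `(2/(1+t)) (w/2 + b u + c w) = (1+t)⁻¹ ((2 c + 1) w + 2 b u) ∈ interior C`. Its level is `(2 c + 1) cr u q`;
if `|2 c + 1| ≥ 3` then `|level| ≥ 3 y/(1 + t) ≥ y ≥ Hm C u`, contradiction. `c = 0`: it is `q + ((2 b + 1)/(1 + t)) u`, `|2 b + 1| ≥ 1`: not interior by hypothesis. `c = -1`: it is `- (q + ((1 - 2 b)/(1 + t)) u)`: not interior (symmetry). -/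
def DlbStmt : Prop :=
  ∀ (C : Set (ℝ × ℝ)) (u q : ℝ × ℝ) (t : ℝ), PB C → 0 ≤ t → t ≤ 1 → u ∈ C → u ∉ interior C →
    Hm C u ≤ (1 + t) * cr u q → (∀ s : ℝ, 1 / (1 + t) ≤ |s| → q + s • u ∉ interior C) →
    ∃ v : Fin 3 → E3, 0 < dt v ∧ Adm (tdd C t) v ∧ dt v = (1 + t) / 2 * cr u q

/-- **DSL** (easy, uses SEB DLB TDD; ADJ of UL3 is proved: `Pool.Agent.UL3.H90.adj`).  `2/5 ≤ t ≤ 17/20`.
PROOF.  SEB, DLB (`Hm C u ≤ (1 + t) cr u q` by the two formulas of SEB). ADJ: disjointness. `(1481/250) dt v = (1481/500) (1 + t) cr u q = (2/3) (4443/1000) (1 + t) cr u q = (2/3) (1 + t + t^2) ar C = V`. -/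
def DslStmt : Prop :=
  ∀ (C : Set (ℝ × ℝ)) (t : ℝ), PB C → 2 / 5 ≤ t → t ≤ 17 / 20 → Good6 (tdd C t)

/-- **DCY** (easy-medium, uses TDD; PLN and ADJ of UL3 are proved: `H23.pln H77.paa (H3.pab H77.paa) H75.pac`, `H90.adj`; compare `Pool/Agent/Helper59_UL6/GCY.lean`).  `17/20 ≤ t ≤ 1`.
PROOF.  PLN: `a, b`, `Adm2 C a b`, `0 < cr a b`, `2 sqrt 3 * cr a b ≤ ar C`. `v = ![up a 0, up b 0, up 0 1]`, `dt v = cr a b`. `∑ n_i v_i = up (i a + j b) m`: if `m ≠ 0` the height is `≥ 1` in absolute value: not interior; if `m = 0`: `i a + j b` is not interior in `C` (`Adm2`), so `Adm (tdd C t) v`; ADJ.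
`V = (2/3)(1 + t + t^2) ar C ≥ 2 * 0.8575 * 2 * 1.732 * cr a b ≥ (1481/250) cr a b`. -/
def DcyStmt : Prop :=
  ∀ (C : Set (ℝ × ℝ)) (t : ℝ), PB C → 17 / 20 ≤ t → t ≤ 1 → Good6 (tdd C t)

/-- **DCA** (easy-medium, uses TDV SEQ LTF; UL5: SEL, LAT, DCB, and ADJ of UL3 are proved; compare `Pool/Agent/Helper38_UL5/CGD.lean`).  `t ≤ 2/5`.
PROOF.  (0) `t ≤ 3/10`: SEL and LAT of UL5: `Adm (dco C) v`, `dt v = (7/64) ar C`; `tda C t ⊆ dco C`, so `Adm (tda C t) v` (`interior_mono`). ADJ of UL3. `(1481/250) (7/64) = 0.64793.. ≤ (2/3)(1 - 0.027)`. (1) `3/10 ≤ t ≤ 7/20`: SEQ with `(w, m, r) = (39/53, 268/265, 195/268)`, LTF with `a = 7/30`, `1 - 3a = 3/10`.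
(2) `7/20 ≤ t`: SEQ with `(81/107, 328/321, 243/328)`, LTF with `a = 13/60`, `1 - 3a = 7/20`. (See the docstring of row GCT for the numbers.) `tda C t ⊆ tda C (1 - 3a)` (TDV), ADJ. (1) `dt v = (217/450) (67/300) ar C`, `(1481/250) (217/450) (67/300) ≤ (2/3) (1 - 0.35^3)`; (2) `dt v = (104/225) (41/180) ar C`,
`(1481/250) (104/225) (41/180) ≤ (2/3) (1 - 0.4^3)`. -/
def DcaStmt : Prop :=
  ∀ (C : Set (ℝ × ℝ)) (t : ℝ), PB C → 0 ≤ t → t ≤ 2 / 5 → Good6 (tda C t)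

/-- **INM** (easy-medium, no hypotheses).  Affine invariance.
PROOF.  Copy row INB of UL5 (`Pool/Agent/Helper15_UL5/INB.lean`), only the constant is different. -/
def InmStmt : Prop :=
  ∀ (K : Set E3) (T : E3 ≃L[ℝ] E3) (c : E3), Good6 ((fun x => T (x - c)) '' K) → Good6 K

/-- **SCM** (easy-medium, uses INM; compare `Pool/Agent/Helper3_UL6/SCL.lean`).  Change of the height.
PROOF.  `T x = (x 0, x 1, (1 - t) x 2)` maps `tdd C t` onto `tda C t`. INM with `c = 0`. -/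
def ScmStmt : Prop :=
  ∀ (C : Set (ℝ × ℝ)) (t : ℝ), t < 1 → Good6 (tda C t) → Good6 (tdd C t)

/-- **SDF** (medium, no hypotheses; compare STF of part 1 and `Pool/Agent/Helper62_UL5/SDC.lean`).  The standard position of a double frustum.
PROOF.  `T`, `C₀` as in STC of UL5 / STF: `T b₁ = e₁`, `T b₂ = e₂`, `T (p - c) = e₃`. The three sets go to `{up q 0}`, `{up (t q) 1}`, `{up (t q) (-1)}`, `q ∈ C₀`. The hull is `tdd C₀ t`: `⊆`: `tdd C₀ t` is convex (see TDD; `C₀` convex and symmetric) and contains the three sets. `⊇`: a point of `tdd C₀ t` at height `z ≥ 0` is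
`up ((1 - (1 - t) z) q) z = (1 - z) up q 0 + z up (t q) 1`; for `z ≤ 0` the same with `-1`. `C₀` has interior points: otherwise it is contained in a line through `0`, and the body in a plane. -/
def SdfStmt : Prop :=
  ∀ (C : Set E3) (c n p : E3) (t : ℝ), IsCompact C → Convex ℝ C → C.Nonempty →
    (∀ x ∈ C, (2 : ℝ) • c - x ∈ C) → (∀ x ∈ C, inner ℝ (x - c) n = 0) → inner ℝ (p - c) n ≠ 0 →
    0 ≤ t → t ≤ 1 →
    (interior (convexHull ℝ (C ∪ (fun x => p + t • (x - c)) '' C ∪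
      (fun x => (2 : ℝ) • c - p + t • (x - c)) '' C))).Nonempty →
    ∃ (T : E3 ≃L[ℝ] E3) (C₀ : Set (ℝ × ℝ)), PB C₀ ∧
      (fun x => T (x - c)) '' convexHull ℝ (C ∪ (fun x => p + t • (x - c)) '' C ∪
        (fun x => (2 : ℝ) • c - p + t • (x - c)) '' C) = tdd C₀ t

end Pool.Agent.UL6
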